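import Pool.Agent.helper71.CL.Spec

set_option autoImplicit false

open MeasureTheory Set Filter Topology
open scoped ENNReal
open Pool.Agent.helper81.CW

noncomputable section

namespace Pool.Agent.CL

/-- the constants. -/
theorem BAM_cst (d m : ℕ) (hm : 1 ≤ m) :
    (1 : ℝ) / √((m + 1 : ℕ) : ℝ) ^ ((m + 1) * d) =
      (√((m : ℝ) / ((m : ℝ) + 1)) ^ (m * d) * √(1 / ((m : ℝ) + 1)) ^ d) * (1 / √(m : ℝ) ^ (m * d)) := by
  have hm0 : (0 : ℝ) < m := by exact_mod_cast hm
  have h1 : √(m : ℝ) ≠ 0 := (Real.sqrt_pos.2 hm0).ne'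
  have h2 : √((m : ℝ) + 1) ≠ 0 := (Real.sqrt_pos.2 (by positivity)).ne'
  rw [Real.sqrt_div hm0.le, Real.sqrt_div zero_le_one, Real.sqrt_one]
  push_cast
  rw [div_pow, div_pow, one_pow, add_mul, one_mul, pow_add]
  field_simp

theorem BAM (hBAL : BAL_stmt) : BAM_stmt := by
  intro d m n hm hn
  induction m, hm using Nat.le_induction generalizing n with
  | base =>
    rw [one_mul] at hn
    subst hn
    simp
  | succ m hm ih =>
    have hn' : n = m * d + d := by rw [hn]; ring
    subst hn'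
    have hm0 : (0 : ℝ) < m := by exact_mod_cast hm
    have h1 := hBAL (m * d) d ((m : ℝ) / (m + 1)) (1 / ((m : ℝ) + 1)) (1 / 2) (by positivity) (by positivity)
      (by field_simp) (by norm_num)
    have h2 := ih (m * d) rfl
    refine le_trans ?_ h1
    rw [BAM_cst d m hm, ENNReal.ofReal_mul (by positivity), pow_succ, mul_assoc]
    refine mul_le_mul_right ?_ _
    rw [← mul_assoc]
    exact mul_le_mul_left h2 _

end Pool.Agent.CL
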